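import Pool.Agent.ZAR.Stmts

/-!
# ZAR squad (MP_c9b61d_ag), row BCO
-/

set_option autoImplicit false

namespace Pool.Agent.ZAR.H69

open MvPowerSeries

/-- Substitution of series without constant term keeps the constant term. -/
theorem constantCoeff_subst' {K : Type} [Field K] {σ τ : Type} {a : σ → MvPowerSeries τ K}
    (ha : HasSubst a) (ha' : ∀ i, constantCoeff (a i) = 0) (f : MvPowerSeries σ K) :
    constantCoeff (subst a f) = constantCoeff f := by
  have h1 : f = C (constantCoeff f) + (f - C (constantCoeff f)) := by ring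
  have h2 : constantCoeff (f - C (constantCoeff f)) = 0 := by
    rw [map_sub, constantCoeff_C, sub_self]
  conv_lhs => rw [h1]
  rw [subst_add ha, map_add, constantCoeff_subst_eq_zero ha ha' h2, add_zero, subst_C,
    constantCoeff_C]

/-- row BCO -/
theorem bco (hTRA : TRAStmt) : BCOStmt := by
  intro K _ n q I Y hSV
  have hY0 : ∀ j, constantCoeff (Y j) = 0 := by
    obtain ⟨p, p', a, a', s, s', ha, _, hT, hs⟩ := hSV
    intro j
    rw [← hs j]
    exact constantCoeff_subst_eq_zero (hasSubst_of_constantCoeff_zero hT.1) hT.1 (ha.1 j)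
  have hY : HasSubst Y := hasSubst_of_constantCoeff_zero hY0
  have hbc : ∀ (m : ℕ) (f : MvPowerSeries (Fin m) K), bc K K (Fin m) f = f := by
    intro m f
    ext d
    rw [coeff_map]
    rfl
  have hI : ∀ f ∈ I, constantCoeff f = 0 ∧ ∀ i, constantCoeff (pderiv K i f) = 0 := by
    intro f hf
    have h1 : f ∈ extI K I := by
      refine Ideal.le_radical ?_
      have := Ideal.mem_map_of_mem (bc K K (Fin n)) hf
      rwa [hbc] at this
    have h2 := hTRA K K n q I Y hSV f h1
    simp_rw [hbc] at h2
    refine ⟨?_, fun i => ?_⟩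
    · rw [← constantCoeff_subst' hY hY0 f, h2.1, map_zero]
    · rw [← constantCoeff_subst' hY hY0 _, h2.2 i, map_zero]
  refine ⟨?_, ?_⟩
  · intro htop
    have h1 : singI I ≤ mI n K := by
      unfold singI
      rw [Ideal.span_le]
      rintro g (hg | ⟨f, hf, i, rfl⟩)
      · exact (hI g hg).1
      · exact (hI f hf).2 i
    rw [htop] at h1
    have h2 : (1 : MvPowerSeries (Fin n) K) ∈ mI n K := h1 Submodule.mem_top
    have h3 : constantCoeff (1 : MvPowerSeries (Fin n) K) = 0 := h2
    rw [map_one] at h3
    exact one_ne_zero h3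
  · intro x hx
    have hx0 : ∀ i, constantCoeff (x i) = 0 := by
      intro i
      have h1 : x i ∈ mI n K := by
        rw [← hx]
        exact Ideal.mem_sup_left (Ideal.subset_span ⟨i, rfl⟩)
      exact h1
    refine ⟨hx0, ?_⟩
    have key : ∀ i, ∃ c : Fin n → K, ∀ j, ∑ k, c k * constantCoeff (pderiv K j (x k)) =
        if i = j then 1 else 0 := by
      intro i
      have h1 : (X i : MvPowerSeries (Fin n) K) ∈ Ideal.span (Set.range x) ⊔ I := by
        rw [hx]
        exact constantCoeff_X i
      obtain ⟨y, hy, z, hz, hyz⟩ := Submodule.mem_sup.1 h1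
      obtain ⟨c, hc⟩ := (Ideal.mem_span_range_iff_exists_fun).1 hy
      refine ⟨fun k => constantCoeff (c k), fun j => ?_⟩
      have h2 : constantCoeff (pderiv K j (X i : MvPowerSeries (Fin n) K)) =
          if i = j then 1 else 0 := by
        classical
        rw [pderiv_X]
        by_cases h : i = j
        · subst h
          simp
        · simp [h, Pi.single_apply, Ne.symm h]
      rw [← h2, ← hyz, map_add, map_add, (hI z hz).2 j, add_zero, ← hc, map_sum, map_sum]
      refine Finset.sum_congr rfl fun k _ => ?_
      rw [Derivation.leibniz, map_add, smul_eq_mul, smul_eq_mul, map_mul, map_mul, hx0 k,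
        zero_mul, add_zero]
    choose c hc using key
    have h1 : Matrix.of c * jac0 x = 1 := by
      ext i j
      rw [Matrix.mul_apply, Matrix.one_apply]
      exact hc i j
    intro h2
    have h3 := congrArg Matrix.det h1
    rw [Matrix.det_mul, h2, mul_zero, Matrix.det_one] at h3
    exact zero_ne_one h3

end Pool.Agent.ZAR.H69
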