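import Pool.Agent.ZAR.Stmts

/-!
# ZAR squad (MP_c9b61d_ag), row EQB
-/

set_option autoImplicit false

namespace Pool.Agent.ZAR.H69

open MvPowerSeries

/-- row EQB -/
theorem eqb : EQBStmt := by
  intro B s
  induction s with
  | zero => intro n K _ I P h; exact h
  | succ s ih =>
    intro n K _ I P h
    cases n with
    | zero => exact h
    | succ n =>
      rcases h with h | ⟨h1, x, _, hx, h2⟩
      · exact Or.inl h
      · exact Or.inr ⟨h1, x, hx, ih _ _ _ _ h2⟩

end Pool.Agent.ZAR.H69
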