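import Pool.Agent.ZAR.Stmts

/-!
# ZAR squad (MP_c9b61d_ag), row PFS
-/

set_option autoImplicit false

namespace Pool.Agent.ZAR.H69

open MvPowerSeries

/-- row PFS -/
theorem pfs : PFSStmt := by
  intro K L _ _ _ n p q u x a s hx ha hs
  have hA : HasSubst a := hasSubst_of_constantCoeff_zero ha
  have hS : HasSubst s := hasSubst_of_constantCoeff_zero hs
  have hS' : HasSubst (fun l => bc K L (Fin q) (s l)) := by
    refine hasSubst_of_constantCoeff_zero fun l => ?_
    rw [constantCoeff_map, hs, map_zero]
  refine ⟨?_, ?_⟩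
  · intro i
    unfold pf
    rw [map_sum]
    refine Finset.sum_eq_zero fun j _ => ?_
    rw [map_mul, constantCoeff_map, constantCoeff_subst_eq_zero hA ha (hx j), map_zero, mul_zero]
  · intro i
    unfold pf
    rw [← coe_substAlgHom hS', map_sum]
    refine Finset.sum_congr rfl fun j _ => ?_
    rw [map_mul, coe_substAlgHom hS']
    rw [subst_C]
    rw [← subst_comp_subst_apply hA hS, map_subst hS]

end Pool.Agent.ZAR.H69
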