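import Pool.Agent.ZAR.Stmts

/-!
# ZAR squad (MP_c9b61d_ag), row TVD
-/

set_option autoImplicit false

namespace Pool.Agent.ZAR.H69

open MvPowerSeries

/-- The extension of the ground field is injective. -/
theorem bc_injective (K L : Type) [Field K] [Field L] [Algebra K L] (σ : Type) :
    Function.Injective (bc K L σ) := by
  intro f g h
  ext d
  have h1 := congrArg (coeff d) h
  rw [coeff_map, coeff_map] at h1
  exact (algebraMap K L).injective h1

/-- row TVD -/
theorem tvd : TVDStmt := by
  intro K _ n p p' q a a' s s' c hs hs' hss hdet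
  refine ⟨hs, hs', hss, ?_⟩
  intro L _ _ g h1 h2
  have h3 : ((tanM a a' s s' c).map (bc K L (Fin q))).det ≠ 0 := by
    intro h
    rw [← RingHom.mapMatrix_apply, ← RingHom.map_det] at h
    exact hdet (bc_injective K L (Fin q) (by rw [h, map_zero]))
  refine Matrix.eq_zero_of_vecMul_eq_zero h3 ?_
  funext k
  simp only [Matrix.vecMul, dotProduct, Matrix.map_apply, tanM, Matrix.of_apply, Pi.zero_apply]
  rcases c k with i | i
  · exact h1 i
  · exact h2 i

end Pool.Agent.ZAR.H69
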